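import Pool.Agent.V1121.UC.Chain

set_option autoImplicit false

namespace Pool.Agent.Results.MP_75f39d_co.LeftModularChains

/-- Let `A` be a separating finite union-closed family which is not a power set, and suppose that
the lattice `L` formed by `A ∪ {∅}`, ordered by inclusion, has a maximal chain
`⊥ = c 0 ⋖ c 1 ⋖ ⋯ ⋖ c n = ⊤` such that `c (i + 1)` is left modular in the interval `[c i, ⊤]` for
every `i < n`. Then some element of the universe lies in strictly more than half of the members. -/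
theorem result {α : Type*} [DecidableEq α] (A : Finset (Finset α)) (hne : A.Nonempty)
    (hU : ∀ X ∈ A, ∀ Y ∈ A, X ∪ Y ∈ A)
    (hsep : ∀ x ∈ A.sup id, ∀ y ∈ A.sup id, x ≠ y →
      ∃ S ∈ A, (x ∈ S ∧ y ∉ S) ∨ (y ∈ S ∧ x ∉ S))
    (hpow : A ≠ (A.sup id).powerset)
    (L : Type) [Lattice L] [BoundedOrder L]
    (e : {X : Finset α // X ∈ insert ∅ A} ≃o L)
    (n : ℕ) (c : ℕ → L) (h0 : c 0 = ⊥) (hn : c n = ⊤) (hc : ∀ i < n, c i ⋖ c (i + 1))
    (hmod : ∀ i < n, ∀ y z : L, c i ≤ y → y ≤ z →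
      (y ⊔ c (i + 1)) ⊓ z = y ⊔ (c (i + 1) ⊓ z)) :
    ∃ x ∈ A.sup id, A.card < 2 * (A.filter (fun S => x ∈ S)).card := by
  classical
  have hfin : Finite L := Finite.of_equiv _ e.toEquiv
  exact Pool.Agent.TH903.Semi.family A hne hU hsep hpow Lᵒᵈ
    (e.trans (OrderIso.dualDual L))
    (Pool.Agent.V1121.UC.Chain.strictJ_of_chain L n c h0 hn hc hmod)

end Pool.Agent.Results.MP_75f39d_co.LeftModularChains
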