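import Pool.Agent.Results.MP_9bc572_co.OneMoreOperation

/-!
# Poonen's strict inequality for union-closed families closed under one more operation

A Boolean function `f` of `k` arguments acts on subsets of a finite set coordinate by coordinate. If
`f` is constant or a disjunction of some of its arguments, every union-closed family containing the
empty set and the ground set is closed under `f`. For **every other** Boolean function `f` Poonen's
strengthening of the union-closed sets conjecture holds for all union-closed families closed under
`f`: a separating one which is not a power set has an element in strictly more than half of its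
members. More generally this holds for every union-closed family in which the members containing
any given member form a distributive lattice; without the separation axiom the only exceptions are
the families of all unions of some pairwise disjoint nonempty sets.
-/

set_option autoImplicit false

namespace Pool.Agent.Results.MP_75f39d_co.OneMoreOperation

open Finset

/-- closed under unions -/
def UnionClosed {α : Type} [DecidableEq α] (F : Finset (Finset α)) : Prop :=
  ∀ S ∈ F, ∀ T ∈ F, S ∪ T ∈ F

/-- the union of all members of `F` contained in `A ∩ B` -/
def meet {α : Type} [DecidableEq α] (F : Finset (Finset α)) (A B : Finset α) : Finset α :=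
  (F.filter fun T => T ⊆ A ∩ B).sup id

/-- the members containing any given member `S` form a distributive lattice -/
def LocallyDistributive {α : Type} [DecidableEq α] (F : Finset (Finset α)) : Prop :=
  ∀ S ∈ F, ∀ A ∈ F, ∀ B ∈ F, ∀ C ∈ F, S ⊆ A → S ⊆ B → S ⊆ C →
    meet F (A ∪ C) (B ∪ C) = meet F A B ∪ C

/-- the number of members containing `a` -/
def deg {α : Type} [DecidableEq α] (F : Finset (Finset α)) (a : α) : ℕ :=
  (F.filter fun T => a ∈ T).card

/-- any two elements of the union of `F` are separated by a member -/
def Separating {α : Type} [DecidableEq α] (F : Finset (Finset α)) : Prop :=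
  ∀ x ∈ F.sup id, ∀ y ∈ F.sup id, x ≠ y → ∃ S ∈ F, ¬ (x ∈ S ↔ y ∈ S)

/-- (a) Poonen's strict inequality; (b) its form without the separation axiom: some element lies in
strictly more than half of the members, unless the members are exactly the unions of some pairwise
disjoint nonempty sets. -/
def Strict {α : Type} [DecidableEq α] (F : Finset (Finset α)) : Prop :=
  (Separating F → F ≠ (F.sup id).powerset → ∃ a, F.card < 2 * deg F a) ∧
  ((∃ a, F.card < 2 * deg F a) ∨
    ∃ B : Finset (Finset α), (∀ b ∈ B, b.Nonempty) ∧ (∀ b ∈ B, ∀ c ∈ B, b ≠ c → Disjoint b c) ∧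
      F = B.powerset.image fun C => C.sup id)

/-- `F` is closed under the coordinatewise operation given by the Boolean function `f` -/
def ClosedUnder {α : Type} [Fintype α] [DecidableEq α] {k : ℕ} (f : (Fin k → Bool) → Bool)
    (F : Finset (Finset α)) : Prop :=
  ∀ S : Fin k → Finset α, (∀ i, S i ∈ F) →
    (univ.filter fun a => f (fun i => decide (a ∈ S i)) = true) ∈ F

/-- `f` is constant or the disjunction of some of its arguments -/
def ConstantOrDisjunction {k : ℕ} (f : (Fin k → Bool) → Bool) : Prop :=
  (∀ v, f v = true) ∨ ∃ A : Finset (Fin k), ∀ v, (f v = true ↔ ∃ i ∈ A, v i = true)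

/-- **Main result.** -/
theorem result :
    (∀ (α : Type) [DecidableEq α] (F : Finset (Finset α)), F.Nonempty → UnionClosed F →
      LocallyDistributive F → Strict F) ∧
    (∀ (α : Type) [Fintype α] [DecidableEq α] (F : Finset (Finset α)), F.Nonempty → UnionClosed F →
      ∀ (k : ℕ) (f : (Fin k → Bool) → Bool), ¬ ConstantOrDisjunction f → ClosedUnder f F →
      Strict F) ∧
    (∀ (α : Type) [Fintype α] [DecidableEq α] (F : Finset (Finset α)), UnionClosed F →
      ∅ ∈ F → univ ∈ F → ∀ (k : ℕ) (f : (Fin k → Bool) → Bool),
      ConstantOrDisjunction f → ClosedUnder f F) := by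
  have hempty : ∀ (α : Type) [DecidableEq α] (F : Finset (Finset α)), F.Nonempty →
      ¬ (∃ S ∈ F, S.Nonempty) → Strict F := by
    intro α _ F hne hno
    push Not at hno
    have hF : F = {∅} := by
      apply Finset.eq_singleton_iff_nonempty_unique_mem.2
      exact ⟨hne, fun S hS => hno S hS⟩
    subst hF
    refine ⟨fun _ h => ?_, Or.inr ⟨∅, by simp, by simp, by simp⟩⟩
    exact absurd (by simp) h
  obtain ⟨h1, h2, h3⟩ := Pool.Agent.Results.MP_9bc572_co.OneMoreOperation.result
  refine ⟨?_, ?_, ?_⟩
  · intro α _ F hne hU hD
    by_cases h : ∃ S ∈ F, S.Nonempty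
    · have := h1 α F hU hD h
      exact ⟨this.2.2, this.2.1⟩
    · exact hempty α F hne h
  · intro α _ _ F hne hU k f hnd hf
    by_cases h : ∃ S ∈ F, S.Nonempty
    · have := h2 α F hU h k f hnd hf
      exact ⟨this.2.2, this.2.1⟩
    · exact hempty α F hne h
  · intro α _ _ F hU h0 h1' k f hf
    exact h3 α F hU h0 h1' k f hf

end Pool.Agent.Results.MP_75f39d_co.OneMoreOperation
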