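import Pool.Agent.Helper29.SubLat.Fam

set_option autoImplicit false

/-!
# Poonen's strengthening for the lattices of subalgebras of finite algebras

Let `S` be a commutative ring and `A` a finite associative `S`-algebra. We show that every separating
union-closed family that is not a power set and whose order of inclusion is anti-isomorphic to the
lattice of the subalgebras of `A` has an element that lies in strictly more than half of its members.
In terms of the lattice: the lattice of the subalgebras of `A` is a finite Boolean lattice or some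
join-irreducible subalgebra is contained in strictly fewer than half of the subalgebras. This holds
for the unital subalgebras of a unital algebra and for all subalgebras of an algebra with or without
unit. With `S = ℤ` these are the subrings of a finite ring.

Proof. There are join-irreducible subalgebras `X, Y` and a subalgebra `B` that is above neither of
them such that every `T` above `X` and `Y` is generated by `X`, `Y` and `T ∩ B`. If `X ≠ Y`, some
subalgebra that is not in `B` avoids `X` and `Y` and the count is strict. If `X = Y` and the count is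
not strict, then the lattice is the product of the two-element lattice and the lattice of the
subalgebras of `B`, and one proceeds by induction.
-/

namespace Pool.Agent.Results.MP_75f39d_co.SubalgebraPoonen

universe u v w

theorem result :
    -- unital subalgebras of a finite unital algebra
    (∀ (S : Type v) (A : Type u) [CommRing S] [Ring A] [Algebra S A] [Finite A],
      ((∃ n : ℕ, Nonempty (Subalgebra S A ≃o (Fin n → Bool))) ∨
        ∃ j : Subalgebra S A, SupIrred j ∧
          2 * Nat.card {H : Subalgebra S A // j ≤ H} < Nat.card (Subalgebra S A)) ∧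
      ∀ (α : Type w) [DecidableEq α] (𝒜 : Finset (Finset α)), 𝒜.Nonempty →
        (∀ X ∈ 𝒜, ∀ Y ∈ 𝒜, X ∪ Y ∈ 𝒜) →
        (∀ x ∈ 𝒜.sup id, ∀ y ∈ 𝒜.sup id, x ≠ y →
          ∃ T ∈ 𝒜, (x ∈ T ∧ y ∉ T) ∨ (y ∈ T ∧ x ∉ T)) →
        𝒜 ≠ (𝒜.sup id).powerset →
        Nonempty ({X // X ∈ 𝒜} ≃o (Subalgebra S A)ᵒᵈ) →
        ∃ i ∈ 𝒜.sup id, 𝒜.card < 2 * (𝒜.filter fun X => i ∈ X).card) ∧
    -- subalgebras of a finite algebra, with or without unit
    (∀ (S : Type v) (R : Type u) [CommRing S] [NonUnitalRing R] [Module S R]
      [IsScalarTower S R R] [SMulCommClass S R R] [Finite R],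
      ((∃ n : ℕ, Nonempty (NonUnitalSubalgebra S R ≃o (Fin n → Bool))) ∨
        ∃ j : NonUnitalSubalgebra S R, SupIrred j ∧
          2 * Nat.card {H : NonUnitalSubalgebra S R // j ≤ H} <
            Nat.card (NonUnitalSubalgebra S R)) ∧
      ∀ (α : Type w) [DecidableEq α] (𝒜 : Finset (Finset α)), 𝒜.Nonempty →
        (∀ X ∈ 𝒜, ∀ Y ∈ 𝒜, X ∪ Y ∈ 𝒜) →
        (∀ x ∈ 𝒜.sup id, ∀ y ∈ 𝒜.sup id, x ≠ y →
          ∃ T ∈ 𝒜, (x ∈ T ∧ y ∉ T) ∨ (y ∈ T ∧ x ∉ T)) →
        𝒜 ≠ (𝒜.sup id).powerset →
        Nonempty ({X // X ∈ 𝒜} ≃o (NonUnitalSubalgebra S R)ᵒᵈ) →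
        ∃ i ∈ 𝒜.sup id, 𝒜.card < 2 * (𝒜.filter fun X => i ∈ X).card) := by
  constructor
  · intro S A _ _ _ _
    have hfin := Pool.Agent.Helper29.SubLat.finite_subalgebra S A
    have h := Pool.Agent.Helper29.SubLat.poonen_unital S A
    exact ⟨h, fun α _ 𝒜 hne hu hsep hpow ⟨e⟩ =>
      Pool.Agent.Helper29.SubLat.family_poonen h 𝒜 hne hu e hsep hpow⟩
  · intro S R _ _ _ _ _ _
    have hfin := Pool.Agent.Helper29.SubLat.finite_nonUnitalSubalgebra S R
    have h := Pool.Agent.Helper29.SubLat.poonen_nonunital S R
    exact ⟨h, fun α _ 𝒜 hne hu hsep hpow ⟨e⟩ =>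
      Pool.Agent.Helper29.SubLat.family_poonen h 𝒜 hne hu e hsep hpow⟩

end Pool.Agent.Results.MP_75f39d_co.SubalgebraPoonen
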