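import Pool.Agent.V1121.UC.Weak

/-!
# MP_75f39d_co: Poonen's strict inequality for the intervals of weak orders of Coxeter groups

Every finite interval of the weak order of a Coxeter group is a lattice. We prove Poonen's
strengthening of the union-closed sets conjecture for all separating families `A` such that `A` or
`A ∪ {∅}`, ordered by inclusion, is isomorphic to such an interval.

Idea: let `s` be simple, `s ≤ v`. By the exchange condition `z ↦ s z` maps the elements of `[1, v]`
which are not above `s` into those above `s`, so the latter are at least one half. If no element of the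
universe lies in more than half of the members, then `[1, v]` is closed under left multiplication by
all simple `s ≤ v`; therefore `v` is the longest element of the parabolic subgroup generated by these
`s` and is the only element above all of them. Since the family separates points, every `x` is then
the only element of a member, and the family is a power set.
-/

namespace Pool.Agent.Results.MP_75f39d_co.WeakOrders

open Pool.Agent.V1121.BP Pool.Agent.V1121.UC

section
variable {B W : Type*} [Group W] {M : CoxeterMatrix B} {cs : CoxeterSystem M W}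
variable {α : Type*} [DecidableEq α] {F : Finset (Finset α)} {φ : Finset α → W} {u v : W}

/-- the data: `φ` is an isomorphism from `F`, ordered by inclusion, onto `[u, u v]` -/
structure Iso (cs : CoxeterSystem M W) (F : Finset (Finset α)) (φ : Finset α → W) (u v : W) : Prop where
  len : cs.length (u * v) = cs.length u + cs.length v
  image : ∀ x, (∃ X ∈ F, φ X = x) ↔ WeakLE cs u x ∧ WeakLE cs x (u * v)
  order : ∀ X ∈ F, ∀ Y ∈ F, X ⊆ Y ↔ WeakLE cs (φ X) (φ Y)

lemma Iso.inj (h : Iso cs F φ u v) {X Y : Finset α} (hX : X ∈ F) (hY : Y ∈ F) (e : φ X = φ Y) :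
    X = Y := by
  apply Finset.Subset.antisymm
  · rw [h.order X hX Y hY, e]; exact WeakLE.refl _
  · rw [h.order Y hY X hX, e]; exact WeakLE.refl _

lemma Iso.form (h : Iso cs F φ u v) {X : Finset α} (hX : X ∈ F) :
    ∃ z, φ X = u * z ∧ WeakLE cs z v := by
  refine ⟨u⁻¹ * φ X, by group, ?_⟩
  rw [← below h.len]
  have := (h.image (φ X)).mp ⟨X, hX, rfl⟩
  rwa [mul_inv_cancel_left]

lemma Iso.mem (h : Iso cs F φ u v) {z : W} (hz : WeakLE cs z v) : ∃ X ∈ F, φ X = u * z :=
  (h.image _).mpr ((below h.len).mpr hz)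

/-- the injection, with the equality case -/
lemma Iso.key (h : Iso cs F φ u v) {i : B} (hi : cs.length (cs.simple i * v) < cs.length v)
    {X : Finset α} (hX : X ∈ F) (hφX : φ X = u * cs.simple i) :
    F.card ≤ 2 * (F.filter (fun Y => X ⊆ Y)).card ∧
    (2 * (F.filter (fun Y => X ⊆ Y)).card ≤ F.card →
      ∀ z, WeakLE cs z v → WeakLE cs (cs.simple i * z) v) := by
  classical
  have hlen := h.len
  have hiv : WeakLE cs (cs.simple i) v := simple_le.mpr hi
  have hchoose : ∀ Y : Finset α, ∃ Z : Finset α, Y ∈ F → ¬ X ⊆ Y →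
      Z ∈ F ∧ X ⊆ Z ∧ φ Z = u * cs.simple i * u⁻¹ * φ Y := by
    intro Y
    by_cases hY : Y ∈ F
    swap
    · exact ⟨Y, fun h => absurd h hY⟩
    by_cases hXY : X ⊆ Y
    · exact ⟨Y, fun _ h => absurd hXY h⟩
    obtain ⟨z, hz, hzv⟩ := h.form hY
    have h1 : ¬ WeakLE cs (cs.simple i) z := by
      rw [h.order X hX Y hY, hφX, hz, cmp hlen hiv hzv] at hXY
      exact hXY
    rw [simple_le] at h1
    have h2 : cs.length z < cs.length (cs.simple i * z) := by
      rcases lcases (cs := cs) i z with h | h <;> omega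
    have h3 := lift hzv hi h2
    obtain ⟨Z, hZ, hZφ⟩ := h.mem h3
    refine ⟨Z, fun _ _ => ⟨hZ, ?_, ?_⟩⟩
    · rw [h.order X hX Z hZ, hφX, hZφ, cmp hlen hiv h3, simple_le, ss]
      exact h2
    · rw [hZφ, hz]; group
  choose g hg using hchoose
  have hmaps : Set.MapsTo g (F.filter (fun Y => ¬ X ⊆ Y)) (F.filter (fun Y => X ⊆ Y)) := by
    intro Y hY
    simp only [Finset.coe_filter, Set.mem_ofPred_eq] at hY ⊢
    exact ⟨(hg Y hY.1 hY.2).1, (hg Y hY.1 hY.2).2.1⟩
  have hinjg : Set.InjOn g (F.filter (fun Y => ¬ X ⊆ Y)) := by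
    intro Y hY Y' hY' he
    simp only [Finset.coe_filter, Set.mem_ofPred_eq] at hY hY'
    have e1 := (hg Y hY.1 hY.2).2.2
    have e2 := (hg Y' hY'.1 hY'.2).2.2
    rw [he] at e1
    rw [e1] at e2
    exact h.inj hY.1 hY'.1 (mul_left_cancel e2)
  have h1 : (F.filter (fun Y => ¬ X ⊆ Y)).card ≤ (F.filter (fun Y => X ⊆ Y)).card :=
    Finset.card_le_card_of_injOn g hmaps hinjg
  have h2 := Finset.card_filter_add_card_filter_not (s := F) (fun Y => X ⊆ Y)
  refine ⟨by omega, fun heq z hz => ?_⟩
  by_cases hsz : cs.length z < cs.length (cs.simple i * z)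
  · exact lift hz hi hsz
  have hsz' : cs.length (cs.simple i * z) < cs.length z := by
    rcases lcases (cs := cs) i z with h | h <;> omega
  obtain ⟨Z, hZ, hZφ⟩ := h.mem hz
  have hXZ : X ⊆ Z := by
    rw [h.order X hX Z hZ, hφX, hZφ, cmp hlen hiv hz, simple_le]; exact hsz'
  have hsurj := Finset.surjOn_of_injOn_of_card_le g hmaps hinjg (by omega)
  obtain ⟨Y, hY, hYZ⟩ := hsurj (show Z ∈ (F.filter (fun Y => X ⊆ Y) : Set (Finset α)) by
    simp only [Finset.coe_filter, Set.mem_ofPred_eq]; exact ⟨hZ, hXZ⟩)
  simp only [Finset.coe_filter, Set.mem_ofPred_eq] at hY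
  have e1 := (hg Y hY.1 hY.2).2.2
  rw [hYZ, hZφ] at e1
  obtain ⟨y, hy, hyv⟩ := h.form hY.1
  have e2 : cs.simple i * z = y := by
    rw [hy] at e1
    have e3 : z = cs.simple i * y := by
      have := congrArg (fun t => u⁻¹ * t) e1
      simpa [mul_assoc] using this
    rw [e3, ss]
  rw [e2]; exact hyv

end

/-- Let `A` be a nonempty finite union-closed family which separates the points of its universe and is
not a power set. If `A` or `A ∪ {∅}`, ordered by inclusion, is isomorphic (via `φ`) to an interval
`[u, w]` of the weak order of a Coxeter group, then some element of the universe lies in strictly more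
than half of the members of `A`. -/
theorem result {B W : Type*} [Group W] {M : CoxeterMatrix B} (cs : CoxeterSystem M W)
    (u w : W) (huw : WeakLE cs u w)
    {α : Type*} [DecidableEq α] (A : Finset (Finset α)) (hne : A.Nonempty)
    (hU : ∀ X ∈ A, ∀ Y ∈ A, X ∪ Y ∈ A)
    (hsep : ∀ x ∈ A.sup id, ∀ y ∈ A.sup id, x ≠ y →
      ∃ S ∈ A, (x ∈ S ∧ y ∉ S) ∨ (y ∈ S ∧ x ∉ S))
    (hpow : A ≠ (A.sup id).powerset)
    (A' : Finset (Finset α)) (hA' : A' = A ∨ A' = insert ∅ A)
    (φ : Finset α → W)
    (himage : ∀ x, (∃ X ∈ A', φ X = x) ↔ WeakLE cs u x ∧ WeakLE cs x w)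
    (horder : ∀ X ∈ A', ∀ Y ∈ A', X ⊆ Y ↔ WeakLE cs (φ X) (φ Y)) :
    ∃ x ∈ A.sup id, A.card < 2 * (A.filter (fun S => x ∈ S)).card := by
  classical
  obtain ⟨v, rfl⟩ : ∃ v, w = u * v := ⟨u⁻¹ * w, by group⟩
  have hlen : cs.length (u * v) = cs.length u + cs.length v := by
    have := huw; unfold WeakLE at this; rwa [inv_mul_cancel_left] at this
  have h : Iso cs A' φ u v := ⟨hlen, himage, horder⟩
  have hAA' : A ⊆ A' := by
    rcases hA' with h | h <;> rw [h]
    exact Finset.subset_insert _ _
  have hmemU : ∀ {x : α} {X : Finset α}, X ∈ A → x ∈ X → x ∈ A.sup id := by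
    intro x X hX hx
    exact Finset.mem_sup.mpr ⟨X, hX, hx⟩
  obtain ⟨X₀, hX₀, hφX₀⟩ := h.mem (WeakLE.one v)
  rw [mul_one] at hφX₀
  have hmin : ∀ Y ∈ A', X₀ ⊆ Y := by
    intro Y hY
    rw [horder X₀ hX₀ Y hY, hφX₀]
    exact ((himage _).mp ⟨Y, hY, rfl⟩).1
  by_cases hv : v = 1
  · -- one member
    have huniq : ∀ Y ∈ A', Y = X₀ := by
      intro Y hY
      apply h.inj hY hX₀
      obtain ⟨h1, h2⟩ := (himage _).mp ⟨Y, hY, rfl⟩
      rw [hv, mul_one] at h2
      rw [hφX₀]; exact WeakLE.antisymm h2 h1
    have hAeq : A = {X₀} := by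
      apply Finset.eq_singleton_iff_nonempty_unique_mem.mpr
      exact ⟨hne, fun Y hY => huniq Y (hAA' hY)⟩
    have hX₀ne : X₀.Nonempty := by
      rw [Finset.nonempty_iff_ne_empty]
      intro h0
      apply hpow
      rw [hAeq, h0]; simp
    obtain ⟨x, hx⟩ := hX₀ne
    refine ⟨x, ?_, ?_⟩
    · rw [hAeq]; simpa using hx
    · rw [hAeq, Finset.filter_singleton, if_pos hx]; simp
  by_cases h0 : ∅ ∈ A
  swap
  · -- the empty set is not a member
    rcases hA' with rfl | rfl
    · -- the smallest member is nonempty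
      have hX₀ne : X₀.Nonempty := by
        rw [Finset.nonempty_iff_ne_empty]
        rintro rfl
        exact h0 hX₀
      obtain ⟨x, hx⟩ := hX₀ne
      refine ⟨x, hmemU hX₀ hx, ?_⟩
      rw [Finset.filter_true_of_mem (fun Y hY => hmin Y hY hx)]
      have := hne.card_pos
      omega
    · obtain ⟨i, hi⟩ := exists_descent (cs := cs) hv
      obtain ⟨X, hX, hφX⟩ := h.mem (simple_le.mpr hi)
      have h1 := (h.key hi hX hφX).1
      have hXne : X ≠ ∅ := by
        rintro rfl
        have : WeakLE cs (u * cs.simple i) (u * 1) := by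
          rw [← hφX, mul_one, ← hφX₀, ← horder _ hX _ hX₀]; simp
        rw [cmp hlen (simple_le.mpr hi) (WeakLE.one v), simple_le] at this
        simp at this
      obtain ⟨x, hx⟩ := Finset.nonempty_iff_ne_empty.mpr hXne
      have hXA : X ∈ A := (Finset.mem_insert.mp hX).resolve_left hXne
      refine ⟨x, hmemU hXA hx, ?_⟩
      have h2 : ((insert ∅ A).filter (fun Y => X ⊆ Y)).card ≤ (A.filter (fun S => x ∈ S)).card := by
        apply Finset.card_le_card
        intro Y hY
        rw [Finset.mem_filter, Finset.mem_insert] at hY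
        rw [Finset.mem_filter]
        refine ⟨hY.1.resolve_left ?_, hY.2 hx⟩
        rintro rfl
        exact absurd (hY.2 hx) (by simp)
      rw [Finset.card_insert_of_notMem h0] at h1
      omega
  -- now the empty set is a member
  have hAeq : A' = A := by
    rcases hA' with h | h
    · exact h
    · rw [h, Finset.insert_eq_self.mpr h0]
  subst hAeq
  have hX₀e : X₀ = ∅ := Finset.subset_empty.mp (hmin ∅ h0)
  by_contra hcon
  push Not at hcon
  -- atoms
  have hatom : ∀ i, cs.length (cs.simple i * v) < cs.length v →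
      ∃ X ∈ A', φ X = u * cs.simple i ∧ X.Nonempty ∧
        (∀ z, WeakLE cs z v → WeakLE cs (cs.simple i * z) v) ∧
        (∀ x ∈ X, ∀ Y ∈ A', x ∈ Y → X ⊆ Y) ∧
        (∀ x ∈ X, A'.card ≤ 2 * (A'.filter (fun S => x ∈ S)).card) := by
    intro i hi
    obtain ⟨X, hX, hφX⟩ := h.mem (simple_le.mpr hi)
    have h1 := h.key hi hX hφX
    have hXne : X ≠ ∅ := by
      rintro rfl
      have : WeakLE cs (u * cs.simple i) (u * 1) := by
        rw [← hφX, mul_one, ← hφX₀, ← horder _ hX _ hX₀]; simp
      rw [cmp hlen (simple_le.mpr hi) (WeakLE.one v), simple_le] at this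
      simp at this
    have hne' := Finset.nonempty_iff_ne_empty.mpr hXne
    have hsub : ∀ x ∈ X, A'.filter (fun Y => X ⊆ Y) ⊆ A'.filter (fun S => x ∈ S) := by
      intro x hx Y hY
      rw [Finset.mem_filter] at hY ⊢
      exact ⟨hY.1, hY.2 hx⟩
    have hle : 2 * (A'.filter (fun Y => X ⊆ Y)).card ≤ A'.card := by
      obtain ⟨x, hx⟩ := hne'
      have h2 := Finset.card_le_card (hsub x hx)
      have h3 := hcon x (hmemU hX hx)
      omega
    refine ⟨X, hX, hφX, hne', h1.2 hle, ?_, ?_⟩
    · intro x hx Y hY hxY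
      have h3 := hcon x (hmemU hX hx)
      have h4 : A'.filter (fun Y => X ⊆ Y) = A'.filter (fun S => x ∈ S) :=
        Finset.eq_of_subset_of_card_le (hsub x hx) (by have := h1.1; omega)
      have : Y ∈ A'.filter (fun Y => X ⊆ Y) := by
        rw [h4]; exact Finset.mem_filter.mpr ⟨hY, hxY⟩
      exact (Finset.mem_filter.mp this).2
    · intro x hx
      exact h1.1.trans (Nat.mul_le_mul_left _ (Finset.card_le_card (hsub x hx)))
  -- a member above all atoms is the top
  have htop : ∀ Z ∈ A', (∀ i, cs.length (cs.simple i * v) < cs.length v →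
      ∀ X ∈ A', φ X = u * cs.simple i → X ⊆ Z) → φ Z = u * v := by
    intro Z hZ hall
    obtain ⟨z, hz, hzv⟩ := h.form hZ
    have hzt : z = v := by
      apply eq_top (cs := cs) _ hzv
      · intro i hi
        obtain ⟨X, hX, hφX, -⟩ := hatom i hi
        have := hall i hi X hX hφX
        rw [horder X hX Z hZ, hφX, hz, cmp hlen (simple_le.mpr hi) hzv, simple_le] at this
        exact this
      · intro i hi x hx
        obtain ⟨X, -, -, -, hc, -⟩ := hatom i hi
        exact hc x hx
    rw [hz, hzt]
  -- every singleton is a member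
  have hsing : ∀ x ∈ A'.sup id, {x} ∈ A' := by
    intro x hx
    -- the largest member avoiding `x`
    set N := (A'.filter (fun S => x ∉ S)).sup id with hN
    have hxN : x ∉ N := by
      intro hxN
      obtain ⟨S, hS, hxS⟩ := Finset.mem_sup.mp hxN
      exact (Finset.mem_filter.mp hS).2 hxS
    have hNmem : N ∈ A' := by
      have : ∀ G : Finset (Finset α), G ⊆ A' → G.sup id ∈ A' := by
        intro G
        induction G using Finset.induction_on with
        | empty => intro _; simpa using h0
        | insert a G _ ih =>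
          intro hG
          rw [Finset.sup_insert]
          exact hU _ (hG (Finset.mem_insert_self a G)) _
            (ih fun b hb => hG (Finset.mem_insert_of_mem hb))
      exact this _ (Finset.filter_subset _ _)
    have hNmax : ∀ Y ∈ A', x ∉ Y → Y ⊆ N := by
      intro Y hY hxY
      exact Finset.le_sup (f := id) (Finset.mem_filter.mpr ⟨hY, hxY⟩)
    -- `N` is not the top
    have hNtop : φ N ≠ u * v := by
      intro hNt
      obtain ⟨S, hS, hxS⟩ := Finset.mem_sup.mp hx
      have : S ⊆ N := by
        rw [horder S hS N hNmem, hNt]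
        exact ((himage _).mp ⟨S, hS, rfl⟩).2
      exact hxN (this hxS)
    have : ∃ i, cs.length (cs.simple i * v) < cs.length v ∧
        ∃ X ∈ A', φ X = u * cs.simple i ∧ ¬ X ⊆ N := by
      by_contra hno
      push Not at hno
      exact hNtop (htop N hNmem fun i hi X hX hφX => hno i hi X hX hφX)
    obtain ⟨i, hi, X, hX, hφX, hXN⟩ := this
    obtain ⟨X', hX', hφX', hne', -, hall, hhalf⟩ := hatom i hi
    have hXX' : X' = X := h.inj hX' hX (by rw [hφX', hφX])
    subst hXX'
    have hyx : ∀ y ∈ X', y = x := by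
      intro y hy
      by_contra hyne
      have hyU := hmemU hX' hy
      have hyN : y ∉ N := fun hyN => hXN (hall y hy N hNmem hyN)
      -- members containing `y` contain `x`
      have hsub : A'.filter (fun S => y ∈ S) ⊆ A'.filter (fun S => x ∈ S) := by
        intro Y hY
        rw [Finset.mem_filter] at hY ⊢
        refine ⟨hY.1, ?_⟩
        by_contra hxY
        exact hyN (hNmax Y hY.1 hxY hY.2)
      have heq : A'.filter (fun S => y ∈ S) = A'.filter (fun S => x ∈ S) := by
        apply Finset.eq_of_subset_of_card_le hsub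
        have h1 := hcon x hx
        have h2 := hhalf y hy
        omega
      obtain ⟨S, hS, hS'⟩ := hsep y hyU x hx hyne
      rcases hS' with ⟨h1, h2⟩ | ⟨h1, h2⟩
      · have : S ∈ A'.filter (fun S => x ∈ S) := by
          rw [← heq]; exact Finset.mem_filter.mpr ⟨hS, h1⟩
        exact h2 (Finset.mem_filter.mp this).2
      · have : S ∈ A'.filter (fun S => y ∈ S) := by
          rw [heq]; exact Finset.mem_filter.mpr ⟨hS, h1⟩
        exact h2 (Finset.mem_filter.mp this).2
    have : X' = {x} := by
      obtain ⟨y, hy⟩ := hne'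
      ext t
      rw [Finset.mem_singleton]
      constructor
      · exact hyx t
      · rintro rfl
        rwa [← hyx y hy]
    rw [← this]; exact hX'
  apply hpow
  ext S
  rw [Finset.mem_powerset]
  constructor
  · intro hS x hx
    exact hmemU hS hx
  · intro hS
    induction S using Finset.induction_on with
    | empty => exact h0
    | insert a S _ ih =>
      rw [Finset.insert_eq]
      refine hU _ (hsing a (hS (Finset.mem_insert_self a S))) _ (ih ?_)
      exact fun b hb => hS (Finset.mem_insert_of_mem hb)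

end Pool.Agent.Results.MP_75f39d_co.WeakOrders
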